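import Pool.Agent.Q113.XK.Stm

/-!
# Project XK of helper113, job KRA (lower bound for the number of tuples)
-/

set_option autoImplicit false

namespace Pool.Agent.Q195.XK

open Finset Pool.Agent.W890.SF Pool.Agent.W593.IR Pool.Agent.Q54.EM Pool.Agent.Q113.XM
  Pool.Agent.Q113.XK

theorem pow_diff (k : ℕ) {a b : ℝ} (hb : 0 ≤ b) (hab : b ≤ a) :
    a ^ (k + 1) - b ^ (k + 1) ≤ (k + 1) * (a - b) * a ^ k := by
  induction k with
  | zero => simp
  | succ k ih =>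
    have ha : 0 ≤ a := hb.trans hab
    have h1 : a ^ (k + 1 + 1) - b ^ (k + 1 + 1) =
        a * (a ^ (k + 1) - b ^ (k + 1)) + (a - b) * b ^ (k + 1) := by ring
    have h2 : a * (a ^ (k + 1) - b ^ (k + 1)) ≤ a * ((k + 1) * (a - b) * a ^ k) :=
      mul_le_mul_of_nonneg_left ih ha
    have h3 : (a - b) * b ^ (k + 1) ≤ (a - b) * a ^ (k + 1) :=
      mul_le_mul_of_nonneg_left (pow_le_pow_left₀ hb hab _) (by linarith)
    rw [h1]
    push_cast
    calc a * (a ^ (k + 1) - b ^ (k + 1)) + (a - b) * b ^ (k + 1)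
        ≤ a * ((k + 1) * (a - b) * a ^ k) + (a - b) * a ^ (k + 1) := add_le_add h2 h3
      _ = ((k : ℝ) + 1 + 1) * (a - b) * a ^ (k + 1) := by ring

/-- lower bound for the number of injective tuples -/
theorem fac_choose_ge (m k : ℕ) :
    (m : ℝ) ^ (k + 1) - (k + 1) * k * (m : ℝ) ^ k ≤ ((k + 1).factorial * m.choose (k + 1) : ℕ) := by
  have h1 : (m + 1 - (k + 1)) ^ (k + 1) ≤ m.descFactorial (k + 1) := Nat.pow_sub_le_descFactorial m (k + 1)
  rw [Nat.descFactorial_eq_factorial_mul_choose] at h1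
  have h2 : (((m + 1 - (k + 1) : ℕ) : ℝ)) ^ (k + 1) ≤ ((k + 1).factorial * m.choose (k + 1) : ℕ) := by
    exact_mod_cast h1
  have h3 : ((m + 1 - (k + 1) : ℕ) : ℝ) ≤ m := by
    exact_mod_cast (by omega : m + 1 - (k + 1) ≤ m)
  have h4 : (m : ℝ) - ((m + 1 - (k + 1) : ℕ) : ℝ) ≤ k := by
    have : m ≤ k + (m + 1 - (k + 1)) := by omega
    have h5 : (m : ℝ) ≤ k + ((m + 1 - (k + 1) : ℕ) : ℝ) := by exact_mod_cast this
    linarith
  have h5 := pow_diff k (Nat.cast_nonneg (m + 1 - (k + 1))) h3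
  have h6 : ((k : ℝ) + 1) * ((m : ℝ) - ((m + 1 - (k + 1) : ℕ) : ℝ)) * (m : ℝ) ^ k ≤
      ((k : ℝ) + 1) * k * (m : ℝ) ^ k := by
    apply mul_le_mul_of_nonneg_right _ (by positivity)
    exact mul_le_mul_of_nonneg_left h4 (by positivity)
  linarith

theorem fac_choose_le (m k : ℕ) : ((k.factorial * m.choose k : ℕ) : ℝ) ≤ (m : ℝ) ^ k := by
  have h1 : m.descFactorial k ≤ m ^ k := Nat.descFactorial_le_pow m k
  rw [Nat.descFactorial_eq_factorial_mul_choose] at h1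
  exact_mod_cast h1

/-- the two lower bounds -/
theorem two_bounds (k : ℕ) {η : ℝ} {n : ℕ} (hn : 0 < n)
    (hηn : ((k : ℝ) + 1) * k + (k + 1) ≤ η * n) {h : ℝ} (hh : 0 ≤ h) (hkh : ((k : ℝ) + 1) * h < n) :
    (mv (k + 1) (h / n) - η) * (n : ℝ) ^ (k + 1) ≤ (((k + 1).factorial *
      max (n.choose (k + 1) - (n - ⌊h⌋₊).choose (k + 1)) ((⌊((k : ℝ) + 1) * h⌋₊).choose (k + 1)) : ℕ) : ℝ) := by
  have hnr : (0 : ℝ) < n := by exact_mod_cast hn
  have hk0 : (0 : ℝ) ≤ k := Nat.cast_nonneg k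
  have hhn : h ≤ n := by nlinarith
  have hpw : (0 : ℝ) ≤ (n : ℝ) ^ k := by positivity
  have hη2 : (((k : ℝ) + 1) * k + (k + 1)) * (n : ℝ) ^ k ≤ η * (n : ℝ) ^ (k + 1) := by
    calc (((k : ℝ) + 1) * k + (k + 1)) * (n : ℝ) ^ k ≤ (η * n) * (n : ℝ) ^ k :=
          mul_le_mul_of_nonneg_right hηn hpw
      _ = η * (n : ℝ) ^ (k + 1) := by ring
  -- first bound
  have hA : (1 - (1 - h / n) ^ (k + 1) - η) * (n : ℝ) ^ (k + 1) ≤
      (((k + 1).factorial * (n.choose (k + 1) - (n - ⌊h⌋₊).choose (k + 1)) : ℕ) : ℝ) := by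
    have e1 : (1 - h / n) ^ (k + 1) * (n : ℝ) ^ (k + 1) = (n - h) ^ (k + 1) := by
      rw [← mul_pow]
      congr 1
      field_simp
    have hfl : ⌊h⌋₊ ≤ n := by
      have : (⌊h⌋₊ : ℝ) ≤ n := (Nat.floor_le hh).trans hhn
      exact_mod_cast this
    have h1 := fac_choose_ge n k
    have h2 := fac_choose_le (n - ⌊h⌋₊) (k + 1)
    have h3 : (((n - ⌊h⌋₊ : ℕ) : ℝ)) = n - ⌊h⌋₊ := by push_cast [hfl]; ring
    have h4 : ((n - ⌊h⌋₊ : ℕ) : ℝ) ≤ n := by exact_mod_cast Nat.sub_le _ _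
    have h5 : (n : ℝ) - h ≤ ((n - ⌊h⌋₊ : ℕ) : ℝ) := by
      rw [h3]
      have := Nat.floor_le hh
      linarith
    have h6 : ((n - ⌊h⌋₊ : ℕ) : ℝ) - (n - h) ≤ 1 := by
      rw [h3]
      have := Nat.lt_floor_add_one h
      linarith
    have h7 := pow_diff k (by linarith : (0 : ℝ) ≤ n - h) h5
    have h8 : ((k : ℝ) + 1) * (((n - ⌊h⌋₊ : ℕ) : ℝ) - (n - h)) * ((n - ⌊h⌋₊ : ℕ) : ℝ) ^ k ≤
        ((k : ℝ) + 1) * (n : ℝ) ^ k := by
      have h9 : ((n - ⌊h⌋₊ : ℕ) : ℝ) ^ k ≤ (n : ℝ) ^ k := pow_le_pow_left₀ (Nat.cast_nonneg _) h4 k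
      calc ((k : ℝ) + 1) * (((n - ⌊h⌋₊ : ℕ) : ℝ) - (n - h)) * ((n - ⌊h⌋₊ : ℕ) : ℝ) ^ k
          ≤ ((k : ℝ) + 1) * 1 * ((n - ⌊h⌋₊ : ℕ) : ℝ) ^ k := by
            apply mul_le_mul_of_nonneg_right _ (by positivity)
            exact mul_le_mul_of_nonneg_left h6 (by positivity)
        _ ≤ ((k : ℝ) + 1) * 1 * (n : ℝ) ^ k := mul_le_mul_of_nonneg_left h9 (by positivity)
        _ = _ := by ring
    have h10 : (((k + 1).factorial * n.choose (k + 1) : ℕ) : ℝ) -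
        (((k + 1).factorial * (n - ⌊h⌋₊).choose (k + 1) : ℕ) : ℝ) ≤
        (((k + 1).factorial * (n.choose (k + 1) - (n - ⌊h⌋₊).choose (k + 1)) : ℕ) : ℝ) := by
      have h11 : (k + 1).factorial * n.choose (k + 1) ≤
          (k + 1).factorial * (n.choose (k + 1) - (n - ⌊h⌋₊).choose (k + 1)) +
          (k + 1).factorial * (n - ⌊h⌋₊).choose (k + 1) := by
        rw [← mul_add]
        exact Nat.mul_le_mul_left _ (by omega)
      have h12 : (((k + 1).factorial * n.choose (k + 1) : ℕ) : ℝ) ≤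
          (((k + 1).factorial * (n.choose (k + 1) - (n - ⌊h⌋₊).choose (k + 1)) : ℕ) : ℝ) +
          (((k + 1).factorial * (n - ⌊h⌋₊).choose (k + 1) : ℕ) : ℝ) := by exact_mod_cast h11
      linarith
    have e2 : (1 - (1 - h / n) ^ (k + 1) - η) * (n : ℝ) ^ (k + 1) =
        (n : ℝ) ^ (k + 1) - (n - h) ^ (k + 1) - η * (n : ℝ) ^ (k + 1) := by
      rw [← e1]; ring
    rw [e2]
    refine le_trans ?_ h10
    have e3 : (((k : ℝ) + 1) * k + (k + 1)) * (n : ℝ) ^ k = (k + 1) * k * (n : ℝ) ^ k + (k + 1) * (n : ℝ) ^ k := by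
      ring
    rw [e3] at hη2
    linarith
  -- second bound
  have hB : ((((k + 1 : ℕ) : ℝ) * (h / n)) ^ (k + 1) - η) * (n : ℝ) ^ (k + 1) ≤
      (((k + 1).factorial * (⌊((k : ℝ) + 1) * h⌋₊).choose (k + 1) : ℕ) : ℝ) := by
    have hkh0 : 0 ≤ ((k : ℝ) + 1) * h := by positivity
    obtain ⟨m, hm⟩ : ∃ m : ℕ, m = ⌊((k : ℝ) + 1) * h⌋₊ := ⟨_, rfl⟩
    rw [← hm]
    have m1 : (m : ℝ) ≤ ((k : ℝ) + 1) * h := by rw [hm]; exact Nat.floor_le hkh0
    have m2 : ((k : ℝ) + 1) * h - m ≤ 1 := by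
      rw [hm]
      have := Nat.lt_floor_add_one (((k : ℝ) + 1) * h)
      linarith
    have h1 := fac_choose_ge m k
    have h2 := pow_diff k (Nat.cast_nonneg m) m1
    have h3 : ((k : ℝ) + 1) * (((k : ℝ) + 1) * h - m) * (((k : ℝ) + 1) * h) ^ k ≤
        ((k : ℝ) + 1) * (n : ℝ) ^ k := by
      have h9 : (((k : ℝ) + 1) * h) ^ k ≤ (n : ℝ) ^ k := pow_le_pow_left₀ hkh0 hkh.le k
      calc ((k : ℝ) + 1) * (((k : ℝ) + 1) * h - m) * (((k : ℝ) + 1) * h) ^ k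
          ≤ ((k : ℝ) + 1) * 1 * (((k : ℝ) + 1) * h) ^ k := by
            apply mul_le_mul_of_nonneg_right _ (by positivity)
            exact mul_le_mul_of_nonneg_left m2 (by positivity)
        _ ≤ ((k : ℝ) + 1) * 1 * (n : ℝ) ^ k := mul_le_mul_of_nonneg_left h9 (by positivity)
        _ = _ := by ring
    have h4 : ((k : ℝ) + 1) * k * (m : ℝ) ^ k ≤ ((k : ℝ) + 1) * k * (n : ℝ) ^ k := by
      apply mul_le_mul_of_nonneg_left _ (by positivity)
      exact pow_le_pow_left₀ (Nat.cast_nonneg _) (m1.trans hkh.le) k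
    have e1 : (((k + 1 : ℕ) : ℝ) * (h / n)) ^ (k + 1) * (n : ℝ) ^ (k + 1) = (((k : ℝ) + 1) * h) ^ (k + 1) := by
      rw [← mul_pow]
      congr 1
      push_cast
      field_simp
    have e2 : ((((k + 1 : ℕ) : ℝ) * (h / n)) ^ (k + 1) - η) * (n : ℝ) ^ (k + 1) =
        (((k : ℝ) + 1) * h) ^ (k + 1) - η * (n : ℝ) ^ (k + 1) := by
      rw [← e1]; ring
    rw [e2]
    have e3 : (((k : ℝ) + 1) * k + (k + 1)) * (n : ℝ) ^ k = (k + 1) * k * (n : ℝ) ^ k + (k + 1) * (n : ℝ) ^ k := by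
      ring
    rw [e3] at hη2
    linarith
  have hmv : mv (k + 1) (h / n) = max (1 - (1 - h / n) ^ (k + 1)) ((((k + 1 : ℕ) : ℝ) * (h / n)) ^ (k + 1)) := rfl
  rw [hmv]
  rcases le_total (1 - (1 - h / n) ^ (k + 1)) ((((k + 1 : ℕ) : ℝ) * (h / n)) ^ (k + 1)) with hc | hc
  · rw [max_eq_right hc]
    refine hB.trans ?_
    exact_mod_cast Nat.mul_le_mul_left _ (le_max_right _ _)
  · rw [max_eq_left hc]
    refine hA.trans ?_
    exact_mod_cast Nat.mul_le_mul_left _ (le_max_left _ _)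

theorem t_KRA (hFAC : S_FAC) : S_KRA := by
  intro k hk η hη
  obtain ⟨j, rfl⟩ : ∃ j, k = j + 1 := ⟨k - 1, by omega⟩
  obtain ⟨n0, hn0⟩ := exists_nat_gt ((((j : ℝ) + 1) * j + (j + 1)) / η)
  refine ⟨max n0 1, ?_⟩
  intro n hn h hh hkh y hy hcard
  have hn1 : n0 ≤ n := le_trans (le_max_left _ _) hn
  have hn2 : 0 < n := lt_of_lt_of_le Nat.one_pos (le_trans (le_max_right _ _) hn)
  have hηn : ((j : ℝ) + 1) * j + (j + 1) ≤ η * n := by
    have h1 : (((j : ℝ) + 1) * j + (j + 1)) / η ≤ n := hn0.le.trans (by exact_mod_cast hn1)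
    rw [div_le_iff₀ hη] at h1
    linarith
  have hkh' : ((j : ℝ) + 1) * h < n := by
    push_cast at hkh
    exact hkh
  have h1 := two_bounds j hn2 hηn hh hkh'
  refine h1.trans ?_
  have hU : Unif (j + 1) (LF (j + 1) y) := by
    intro e he
    unfold LF at he
    rw [Finset.mem_filter, Finset.mem_powersetCard] at he
    exact he.1.2
  have hE : ∀ e ∈ LF (j + 1) y, 1 ≤ ∑ v ∈ e, y v := by
    intro e he
    unfold LF at he
    rw [Finset.mem_filter] at he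
    exact he.2
  have h2 := hFAC (Fin n) (j + 1) (LF (j + 1) y) y hU hE
  have h3 : max (n.choose (j + 1) - (n - ⌊h⌋₊).choose (j + 1)) ((⌊((j : ℝ) + 1) * h⌋₊).choose (j + 1)) ≤
      (LF (j + 1) y).card := by
    push_cast at hcard
    exact hcard
  have h4 : (j + 1).factorial * max (n.choose (j + 1) - (n - ⌊h⌋₊).choose (j + 1))
      ((⌊((j : ℝ) + 1) * h⌋₊).choose (j + 1)) ≤ NG y (j + 1) := by
    calc _ ≤ (j + 1).factorial * (LF (j + 1) y).card := Nat.mul_le_mul_left _ h3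
      _ = (LF (j + 1) y).card * (j + 1).factorial := mul_comm _ _
      _ ≤ _ := h2
  exact_mod_cast h4

end Pool.Agent.Q195.XK
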