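import Pool.Agent.Q113.XK.Stm

/-!
# Project XK of helper113, job WC6 (stability of covers in the window from the stability of laws)
-/

set_option autoImplicit false

namespace Pool.Agent.Q195.XK

open Finset Pool.Agent.W890.SF Pool.Agent.W593.IR Pool.Agent.Q54.EM Pool.Agent.Q113.XM
  Pool.Agent.Q113.XU Pool.Agent.Q113.XK

theorem unif_sum {n : ℕ} (P : Fin n → Prop) [DecidablePred P] :
    (∑ v : Fin n, if P v then 1 / (n : ℝ) else 0) = ((univ.filter P).card : ℝ) / n := by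
  rw [← Finset.sum_filter, Finset.sum_const, nsmul_eq_mul]
  ring

theorem t_WC6 (hB : S_BRG) : S_WC6 := by
  intro k hk hW c hc γ hγ
  obtain ⟨η, hη, h⟩ := hW c hc γ hγ
  refine ⟨η, hη, 1, ?_⟩
  intro n hn y hy hsum _ hNG
  have hnr : (0 : ℝ) < n := by exact_mod_cast hn
  haveI : Nonempty (Fin n) := ⟨⟨0, hn⟩⟩
  obtain ⟨b1, b2, b3⟩ := hB (Fin n) y hy
  rw [Fintype.card_fin] at b1 b2 b3
  have hmu : mu (fun _ : Fin n => 1 / (n : ℝ)) y ≤ c + η := by
    rw [b2, div_le_iff₀ hnr]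
    exact hsum
  have hUP : ((k : ℝ) * c) ^ k - η ≤ UP (fun _ : Fin n => 1 / (n : ℝ)) y k 1 := by
    have h1 := b3 k 1
    have h2 : (({f : Fin k → Fin n | 1 ≤ ∑ i, y (f i)}.ncard : ℕ) : ℝ) = (NG y k : ℝ) := rfl
    rw [h2] at h1
    rw [← h1] at hNG
    exact le_of_mul_le_mul_right hNG (by positivity)
  have key : ∀ P : Fin n → Prop, ∀ _ : DecidablePred P,
      (∑ v : Fin n, if P v then 1 / (n : ℝ) else 0) ≤ γ → ((univ.filter P).card : ℝ) ≤ γ * n := by
    intro P _ hP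
    rw [unif_sum, div_le_iff₀ hnr] at hP
    exact hP
  rcases h (Fin n) (fun _ => 1 / (n : ℝ)) y b1 hmu hUP with h3 | h3
  · left
    exact key _ _ h3
  · right
    exact key _ _ h3

end Pool.Agent.Q195.XK
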