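import Pool.Agent.Q113.XK.Stm

/-!
# Project XK of helper113, job HMF (fractional matchings avoiding a small set)
-/

set_option autoImplicit false

namespace Pool.Agent.Q195.XK

open Finset Pool.Agent.W890.SF Pool.Agent.W593.IR Pool.Agent.Q54.EM Pool.Agent.Q113.XM
  Pool.Agent.Q113.XK

theorem ms_mono {V : Type} [DecidableEq V] (k : ℕ) (F : Finset (Finset V)) {T T' : Finset V}
    (h : T ⊆ T') (v : V) : ms k F T v ≤ ms k F T' v := by
  unfold ms
  apply Finset.card_le_card
  apply Finset.filter_subset_filter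
  exact Finset.powersetCard_mono (Finset.erase_subset_erase v h)

theorem t_HMF (hG : S_GRE) (hP : S_PFM) : S_HMF := by
  intro k hk c0 c hc0 hc
  have hk0 : 0 < k := by omega
  have hkr : (0 : ℝ) < k := by exact_mod_cast hk0
  obtain ⟨δ1, hδ1, n1, h1⟩ := hG k (by omega) c hc
  obtain ⟨γ, hγ, n2, h2⟩ := hP k hk (c0 / 2) (by positivity)
  obtain ⟨δ, hδ, hδa, hδb, hδc⟩ : ∃ δ : ℝ, 0 < δ ∧ δ ≤ δ1 / 2 ∧ δ ≤ γ ∧ δ * (k + 1) ≤ c0 / 4 := by
    refine ⟨min (min (δ1 / 2) γ) (c0 / (4 * (k + 1))), ?_, ?_, ?_, ?_⟩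
    · apply lt_min
      · exact lt_min (by positivity) hγ
      · positivity
    · exact le_trans (min_le_left _ _) (min_le_left _ _)
    · exact le_trans (min_le_left _ _) (min_le_right _ _)
    · have h3 : min (min (δ1 / 2) γ) (c0 / (4 * (k + 1))) ≤ c0 / (4 * (k + 1)) := min_le_right _ _
      calc min (min (δ1 / 2) γ) (c0 / (4 * (k + 1))) * (k + 1) ≤ c0 / (4 * (k + 1)) * (k + 1) :=
            mul_le_mul_of_nonneg_right h3 (by positivity)
        _ = c0 / 4 := by field_simp
  refine ⟨δ, hδ, max n1 n2, ?_⟩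
  intro n hn F hF T H Z hTH hT hms hdg hHT hZ
  have hnn1 : n1 ≤ n := le_trans (le_max_left _ _) hn
  have hnn2 : n2 ≤ n := le_trans (le_max_right _ _) hn
  have hn0 : (0 : ℝ) ≤ n := Nat.cast_nonneg n
  set X : Finset (Fin n) := (H \ T) \ Z with hX
  have hXc : (X.card : ℝ) ≤ δ * n := by
    refine le_trans ?_ hHT
    exact_mod_cast Finset.card_le_card Finset.sdiff_subset
  have hXH : X ⊆ H := fun v hv => (Finset.mem_sdiff.mp (Finset.mem_sdiff.mp hv).1).1
  have hXZ : Disjoint X Z := Finset.sdiff_disjoint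
  have hsum : (X.card : ℝ) + Z.card ≤ δ1 * n := by
    have h4 : δ * n ≤ δ1 / 2 * n := mul_le_mul_of_nonneg_right hδa hn0
    linarith
  obtain ⟨M1, hM1F, hM1, hM1c, hM1Z, hM1X⟩ := h1 n hnn1 F hF X Z hXZ
    (fun v hv => hdg v (hXH hv)) hsum
  set W : Finset (Fin n) := M1.biUnion id with hW
  have hWc : W.card ≤ k * X.card := by
    have h3 : W.card ≤ ∑ e ∈ M1, (id e).card := Finset.card_biUnion_le
    have h4 : ∑ e ∈ M1, (id e).card = ∑ _e ∈ M1, k :=
      Finset.sum_congr rfl fun e he => hF e (hM1F he)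
    rw [h4, Finset.sum_const, smul_eq_mul, hM1c, mul_comm] at h3
    exact h3
  set T1 : Finset (Fin n) := (T \ Z) \ W with hT1
  -- the size of `T1`
  have hWX : (W \ X).card + X.card = W.card := by
    rw [Finset.card_sdiff_add_card_eq_card hM1X]
  have hTX : Disjoint (T \ Z) X := by
    rw [Finset.disjoint_left]
    intro v hv hvX
    exact (Finset.mem_sdiff.mp (Finset.mem_sdiff.mp hvX).1).2 (Finset.mem_sdiff.mp hv).1
  have hT1a : (T \ Z).card ≤ T1.card + (W \ X).card := by
    have h3 : T \ Z ⊆ T1 ∪ (W \ X) := by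
      intro v hv
      by_cases hvW : v ∈ W
      · apply Finset.mem_union_right
        rw [Finset.mem_sdiff]
        exact ⟨hvW, fun hvX => Finset.disjoint_left.mp hTX hv hvX⟩
      · apply Finset.mem_union_left
        rw [hT1, Finset.mem_sdiff]
        exact ⟨hv, hvW⟩
    exact le_trans (Finset.card_le_card h3) (Finset.card_union_le _ _)
  have hHZ : (H \ Z).card ≤ X.card + (T \ Z).card := by
    have h3 : H \ Z ⊆ X ∪ (T \ Z) := by
      intro v hv
      rw [Finset.mem_sdiff] at hv
      by_cases hvT : v ∈ T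
      · apply Finset.mem_union_right
        rw [Finset.mem_sdiff]
        exact ⟨hvT, hv.2⟩
      · apply Finset.mem_union_left
        rw [hX, Finset.mem_sdiff, Finset.mem_sdiff]
        exact ⟨⟨hv.1, hvT⟩, hv.2⟩
    exact le_trans (Finset.card_le_card h3) (Finset.card_union_le _ _)
  have hHX : (H \ Z).card ≤ k * X.card + T1.card := by omega
  have hTZ : T.card ≤ (T \ Z).card + Z.card := by
    have h3 : T ⊆ (T \ Z) ∪ Z := by
      intro v hv
      by_cases hvZ : v ∈ Z
      · exact Finset.mem_union_right _ hvZ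
      · exact Finset.mem_union_left _ (Finset.mem_sdiff.mpr ⟨hv, hvZ⟩)
    exact le_trans (Finset.card_le_card h3) (Finset.card_union_le _ _)
  have hT1c : T.card ≤ T1.card + k * X.card + Z.card := by omega
  have hT1T : T1 ⊆ T := fun v hv => (Finset.mem_sdiff.mp (Finset.mem_sdiff.mp hv).1).1
  have hT1l : c0 / 2 * n ≤ (T1.card : ℝ) := by
    have h3 : (T.card : ℝ) ≤ T1.card + k * X.card + Z.card := by exact_mod_cast hT1c
    have h5 : (k : ℝ) * X.card ≤ k * (δ * n) := mul_le_mul_of_nonneg_left hXc hkr.le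
    have h6 : δ * (k + 1) * n ≤ c0 / 4 * n := mul_le_mul_of_nonneg_right hδc hn0
    have h7 : δ * (k + 1) * n = k * (δ * n) + δ * n := by ring
    have h8 : 0 ≤ c0 * n := by positivity
    rw [h7] at h6
    linarith
  obtain ⟨w1, hw0, hwT, hwv, hwt⟩ := h2 n hnn2 F hF T1 hT1l (by
    intro v hv
    have h3 : (ms k F T1 v : ℝ) ≤ ms k F T v := by exact_mod_cast ms_mono k F hT1T v
    have h4 : δ * (n : ℝ) ^ (k - 1) ≤ γ * (n : ℝ) ^ (k - 1) :=
      mul_le_mul_of_nonneg_right hδb (by positivity)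
    exact le_trans h3 (le_trans (hms v (hT1T hv)) h4))
  refine ⟨fun e => (if e ∈ M1 then 1 else 0) + w1 e, ?_, ?_, ?_, ?_⟩
  · intro e
    have h3 : (0 : ℝ) ≤ if e ∈ M1 then 1 else 0 := by split_ifs <;> norm_num
    exact add_nonneg h3 (hw0 e)
  · intro e he hne
    by_cases heM : e ∈ M1
    · exact hM1Z e heM
    · have h3 : w1 e ≠ 0 := by
        intro h0
        apply hne
        show (if e ∈ M1 then (1 : ℝ) else 0) + w1 e = 0
        rw [if_neg heM, h0, add_zero]
      have h4 := hwT e he h3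
      rw [Finset.disjoint_left]
      intro v hv hvZ
      exact (Finset.mem_sdiff.mp (Finset.mem_sdiff.mp (h4 hv)).1).2 hvZ
  · intro v
    rw [Finset.sum_add_distrib]
    by_cases hvW : v ∈ W
    · have h3 : ∑ e ∈ F.filter (fun e => v ∈ e), w1 e = 0 := by
        apply Finset.sum_eq_zero
        intro e he
        rw [Finset.mem_filter] at he
        by_contra hne
        have h4 := hwT e he.1 hne he.2
        exact (Finset.mem_sdiff.mp h4).2 hvW
      have h4 : ∑ e ∈ F.filter (fun e => v ∈ e), (if e ∈ M1 then (1 : ℝ) else 0) ≤ 1 := by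
        rw [← Finset.sum_filter, Finset.sum_const, nsmul_eq_mul, mul_one]
        have h5 : ((F.filter (fun e => v ∈ e)).filter (fun e => e ∈ M1)).card ≤ 1 := by
          rw [Finset.card_le_one]
          intro a ha b hb
          simp only [Finset.mem_filter] at ha hb
          by_contra hab
          exact Finset.disjoint_left.mp (hM1 a ha.2 b hb.2 hab) ha.1.2 hb.1.2
        exact_mod_cast h5
      rw [h3, add_zero]
      exact h4
    · have h3 : ∑ e ∈ F.filter (fun e => v ∈ e), (if e ∈ M1 then (1 : ℝ) else 0) = 0 := by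
        apply Finset.sum_eq_zero
        intro e he
        rw [Finset.mem_filter] at he
        rw [if_neg]
        intro heM
        apply hvW
        rw [hW, Finset.mem_biUnion]
        exact ⟨e, heM, he.2⟩
      rw [h3, zero_add]
      exact hwv v
  · rw [Finset.sum_add_distrib]
    have h3 : ∑ e ∈ F, (if e ∈ M1 then (1 : ℝ) else 0) = X.card := by
      rw [← Finset.sum_filter, Finset.sum_const, nsmul_eq_mul, mul_one]
      have h4 : F.filter (fun e => e ∈ M1) = M1 := by
        ext e
        rw [Finset.mem_filter]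
        exact ⟨fun h => h.2, fun h => ⟨hM1F h, h⟩⟩
      rw [h4, hM1c]
    rw [h3]
    have h4 : ((H \ Z).card : ℝ) ≤ k * X.card + T1.card := by exact_mod_cast hHX
    rw [div_le_iff₀ hkr]
    rw [div_le_iff₀ hkr] at hwt
    calc ((H \ Z).card : ℝ) ≤ k * X.card + T1.card := h4
      _ ≤ k * X.card + (∑ e ∈ F, w1 e) * k := by linarith
      _ = (X.card + ∑ e ∈ F, w1 e) * k := by ring

end Pool.Agent.Q195.XK
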