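import Pool.Agent.Q195.XK.KRA

/-!
# Project XK of helper113, job KR1 (star range)
-/

set_option autoImplicit false

namespace Pool.Agent.Q195.XK

open Finset Pool.Agent.W890.SF Pool.Agent.W593.IR Pool.Agent.Q54.EM Pool.Agent.Q113.XM
  Pool.Agent.Q113.XK

/-- the gain below the critical density -/
theorem gain {k : ℕ} (hk : 2 ≤ k) {c : ℝ} (hc : Crt k c) {e0 x : ℝ} (hx : 0 ≤ x) (hxc : x ≤ c - e0)
    (he : 0 < e0) : e0 * x ≤ 1 - (1 - x) ^ k - (k * x) ^ k := by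
  obtain ⟨c0, c1, c2⟩ := hc
  have hk0 : (0 : ℝ) < k := by exact_mod_cast (by omega : 0 < k)
  have hk1 : (1 : ℝ) ≤ k := by exact_mod_cast (by omega : 1 ≤ k)
  have hcle : c ≤ 1 := by nlinarith
  have geo : ∀ t : ℝ, 1 - (1 - t) ^ k = t * ∑ i ∈ range k, (1 - t) ^ i := by
    intro t
    have h1 := mul_neg_geom_sum (1 - t) k
    have e : 1 - (1 - t) = t := by ring
    rw [e] at h1
    exact h1.symm
  have hGc : ∑ i ∈ range k, (1 - c) ^ i = (k : ℝ) ^ k * c ^ (k - 1) := by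
    have h1 := geo c
    have h2 : 1 - (1 - c) ^ k = (k * c) ^ k := by linarith
    rw [h2] at h1
    have h3 : (k * c) ^ k = c * ((k : ℝ) ^ k * c ^ (k - 1)) := by
      rw [mul_pow]
      have : c ^ k = c * c ^ (k - 1) := by
        rw [← pow_succ']
        congr 1
        omega
      rw [this]
      ring
    rw [h3] at h1
    exact (mul_left_cancel₀ c0.ne' h1).symm
  have hGx : ∑ i ∈ range k, (1 - c) ^ i + (c - x) ≤ ∑ i ∈ range k, (1 - x) ^ i := by
    have h1 : (1 : ℕ) ∈ range k := Finset.mem_range.mpr (by omega)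
    rw [← Finset.add_sum_erase _ _ h1, ← Finset.add_sum_erase _ _ h1]
    have h2 : ∑ i ∈ (range k).erase 1, (1 - c) ^ i ≤ ∑ i ∈ (range k).erase 1, (1 - x) ^ i := by
      apply Finset.sum_le_sum
      intro i _
      exact pow_le_pow_left₀ (by linarith) (by linarith) i
    rw [pow_one, pow_one]
    linarith
  have hxk : (k * x) ^ k = x * ((k : ℝ) ^ k * x ^ (k - 1)) := by
    rw [mul_pow]
    have : x ^ k = x * x ^ (k - 1) := by
      rw [← pow_succ']
      congr 1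
      omega
    rw [this]
    ring
  have hmono : (k : ℝ) ^ k * x ^ (k - 1) ≤ (k : ℝ) ^ k * c ^ (k - 1) := by
    apply mul_le_mul_of_nonneg_left _ (by positivity)
    exact pow_le_pow_left₀ hx (by linarith) _
  rw [geo x, hxk, ← mul_sub, mul_comm]
  apply mul_le_mul_of_nonneg_left _ hx
  linarith

/-- the star number -/
theorem star_ge (j n s : ℕ) (hs : s ≤ n) :
    (n : ℝ) ^ (j + 2) - ((n : ℝ) - s) ^ (j + 2) - ((j : ℝ) + 2) * (j + 1) * (j + 1) * s * (n : ℝ) ^ j ≤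
      (((j + 2).factorial * n.choose (j + 2) : ℕ) : ℝ) -
      (((j + 2).factorial * (n - s).choose (j + 2) : ℕ) : ℝ) := by
  induction s with
  | zero => simp
  | succ s ih =>
    have h1 := ih (by omega)
    obtain ⟨m, hm⟩ : ∃ m, n - s = m + 1 := ⟨n - s - 1, by omega⟩
    have hm2 : n - (s + 1) = m := by omega
    have hmr : (n : ℝ) - s = m + 1 := by
      have h2 : n = m + 1 + s := by omega
      have h3 : (n : ℝ) = m + 1 + s := by exact_mod_cast h2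
      linarith
    have hmn : (m : ℝ) + 1 ≤ n := by
      have h2 : m + 1 ≤ n := by omega
      exact_mod_cast h2
    rw [hm, hmr] at h1
    rw [hm2]
    have e1 : (n : ℝ) - ((s + 1 : ℕ) : ℝ) = m := by push_cast; linarith
    rw [e1]
    have h2 : (((j + 2).factorial * (m + 1).choose (j + 2) : ℕ) : ℝ) =
        (((j + 2).factorial * m.choose (j + 2) : ℕ) : ℝ) + ((j : ℝ) + 2) * (((j + 1).factorial * m.choose (j + 1) : ℕ) : ℝ) := by
      have e2 : (j + 2).factorial * (m + 1).choose (j + 2) =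
          (j + 2).factorial * m.choose (j + 2) + (j + 2) * ((j + 1).factorial * m.choose (j + 1)) := by
        rw [Nat.choose_succ_succ' m (j + 1), Nat.factorial_succ (j + 1)]
        ring
      rw [e2]
      push_cast
      ring
    have h3 := fac_choose_ge m j
    have h4 := pow_diff (j + 1) (Nat.cast_nonneg m) (by linarith : (m : ℝ) ≤ m + 1)
    have h5 := pow_diff j (Nat.cast_nonneg m) (by linarith : (m : ℝ) ≤ m + 1)
    have e3 : ((m : ℝ) + 1 - m) = 1 := by ring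
    rw [e3] at h4 h5
    have hj : (0 : ℝ) ≤ j := Nat.cast_nonneg j
    have h6 : (m : ℝ) ^ j ≤ (n : ℝ) ^ j := pow_le_pow_left₀ (Nat.cast_nonneg _) (by linarith) j
    have h7 : ((m : ℝ) + 1) ^ j ≤ (n : ℝ) ^ j := pow_le_pow_left₀ (by positivity) hmn j
    rw [h2] at h1
    have h8 : ((j : ℝ) + 2) * ((m : ℝ) ^ (j + 1) - (j + 1) * j * (m : ℝ) ^ j) ≤
        ((j : ℝ) + 2) * (((j + 1).factorial * m.choose (j + 1) : ℕ) : ℝ) :=
      mul_le_mul_of_nonneg_left h3 (by positivity)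
    have h9 : ((m : ℝ) + 1) ^ (j + 2) - (m : ℝ) ^ (j + 2) ≤
        ((j : ℝ) + 2) * ((m : ℝ) ^ (j + 1) + (j + 1) * ((m : ℝ) + 1) ^ j) := by
      have e4 : ((m : ℝ) + 1) ^ (j + 1 + 1) - (m : ℝ) ^ (j + 1 + 1) ≤
          ((j : ℝ) + 2) * ((m : ℝ) + 1) ^ (j + 1) := by
        calc _ ≤ _ := h4
          _ = ((j : ℝ) + 2) * ((m : ℝ) + 1) ^ (j + 1) := by push_cast; ring
      refine e4.trans ?_
      apply mul_le_mul_of_nonneg_left _ (by positivity)
      linarith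
    have h10 : ((j : ℝ) + 2) * ((j + 1) * ((m : ℝ) + 1) ^ j) ≤ ((j : ℝ) + 2) * ((j + 1) * (n : ℝ) ^ j) :=
      mul_le_mul_of_nonneg_left (mul_le_mul_of_nonneg_left h7 (by positivity)) (by positivity)
    have h11 : ((j : ℝ) + 2) * ((j + 1) * j * (m : ℝ) ^ j) ≤ ((j : ℝ) + 2) * ((j + 1) * j * (n : ℝ) ^ j) :=
      mul_le_mul_of_nonneg_left (mul_le_mul_of_nonneg_left h6 (by positivity)) (by positivity)
    push_cast at h1 h8 ⊢
    linarith

/-- the clique number -/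
theorem clique_le (j n s : ℕ) (hs : 1 ≤ s) (hsn : s ≤ n) :
    (((j + 2).factorial * ((j + 2) * (s + 1) - 1).choose (j + 2) : ℕ) : ℝ) ≤
      (((j : ℝ) + 2) * s) ^ (j + 2) + ((j : ℝ) + 2) * (j + 2) * (2 * (j + 2)) ^ (j + 1) * s * (n : ℝ) ^ j := by
  have h1 := fac_choose_le ((j + 2) * (s + 1) - 1) (j + 2)
  have hsr : (1 : ℝ) ≤ s := by exact_mod_cast hs
  have hj : (0 : ℝ) ≤ j := Nat.cast_nonneg j
  have h2 : (((j + 2) * (s + 1) - 1 : ℕ) : ℝ) ≤ ((j : ℝ) + 2) * (s + 1) := by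
    have : (j + 2) * (s + 1) - 1 ≤ (j + 2) * (s + 1) := Nat.sub_le _ _
    exact_mod_cast this
  have h3 : (((j + 2) * (s + 1) - 1 : ℕ) : ℝ) ^ (j + 2) ≤ (((j : ℝ) + 2) * (s + 1)) ^ (j + 2) :=
    pow_le_pow_left₀ (Nat.cast_nonneg _) h2 _
  have h4 := pow_diff (j + 1) (a := ((j : ℝ) + 2) * (s + 1)) (b := ((j : ℝ) + 2) * s) (by positivity)
    (by nlinarith)
  have h5 : (((j : ℝ) + 2) * (s + 1)) ^ (j + 1) ≤ (2 * (j + 2)) ^ (j + 1) * (s * (n : ℝ) ^ j) := by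
    calc (((j : ℝ) + 2) * (s + 1)) ^ (j + 1) ≤ (2 * (j + 2) * s) ^ (j + 1) := by
          apply pow_le_pow_left₀ (by positivity)
          nlinarith
      _ = (2 * (j + 2)) ^ (j + 1) * (s * (s : ℝ) ^ j) := by rw [mul_pow]; ring
      _ ≤ _ := by
          apply mul_le_mul_of_nonneg_left _ (by positivity)
          apply mul_le_mul_of_nonneg_left _ (by positivity)
          exact pow_le_pow_left₀ (by positivity) (by exact_mod_cast hsn) j
  have h6 : (((j + 1 : ℕ) : ℝ) + 1) * (((j : ℝ) + 2) * (s + 1) - ((j : ℝ) + 2) * s) *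
      (((j : ℝ) + 2) * (s + 1)) ^ (j + 1) ≤
      ((j : ℝ) + 2) * (j + 2) * ((2 * (j + 2)) ^ (j + 1) * (s * (n : ℝ) ^ j)) := by
    have e1 : (((j + 1 : ℕ) : ℝ) + 1) * (((j : ℝ) + 2) * (s + 1) - ((j : ℝ) + 2) * s) =
        ((j : ℝ) + 2) * (j + 2) := by push_cast; ring
    rw [e1]
    exact mul_le_mul_of_nonneg_left h5 (by positivity)
  calc _ ≤ _ := h1
    _ ≤ _ := h3
    _ ≤ (((j : ℝ) + 2) * s) ^ (j + 2) + ((j : ℝ) + 2) * (j + 2) * ((2 * (j + 2)) ^ (j + 1) * (s * (n : ℝ) ^ j)) := by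
        linarith
    _ = _ := by ring

/-- comparison of the two numbers below the critical density -/
theorem compare (j : ℕ) {c e0 : ℝ} (hc : Crt (j + 2) c) (he : 0 < e0) :
    ∃ n0 : ℕ, ∀ n : ℕ, n0 ≤ n → ∀ s : ℕ, (s : ℝ) ≤ (c - e0) * n →
      ((j + 2) * (s + 1) - 1).choose (j + 2) ≤ n.choose (j + 2) - (n - s).choose (j + 2) := by
  obtain ⟨C0, hC0⟩ : ∃ C0 : ℝ, C0 = ((j : ℝ) + 2) * (j + 1) * (j + 1) := ⟨_, rfl⟩
  obtain ⟨C1, hC1⟩ : ∃ C1 : ℝ, C1 = ((j : ℝ) + 2) * (j + 2) * (2 * (j + 2)) ^ (j + 1) := ⟨_, rfl⟩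
  obtain ⟨n0, hn0⟩ := exists_nat_gt ((C0 + C1) / e0)
  refine ⟨max n0 1, ?_⟩
  intro n hn s hs
  have hn1 : n0 ≤ n := le_trans (le_max_left _ _) hn
  have hn2 : 0 < n := lt_of_lt_of_le Nat.one_pos (le_trans (le_max_right _ _) hn)
  have hnr : (0 : ℝ) < n := by exact_mod_cast hn2
  have hen : C0 + C1 ≤ e0 * n := by
    have h1 : (C0 + C1) / e0 ≤ n := hn0.le.trans (by exact_mod_cast hn1)
    rw [div_le_iff₀ he] at h1
    linarith
  rcases Nat.eq_zero_or_pos s with h0 | h0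
  · rw [h0, Nat.choose_eq_zero_of_lt (by omega)]
    exact Nat.zero_le _
  have hk0 : (0 : ℝ) < ((j + 2 : ℕ) : ℝ) := by positivity
  have hcle : c ≤ 1 := by
    have h1 := hc.2.1
    have h2 : (1 : ℝ) ≤ ((j + 2 : ℕ) : ℝ) := by exact_mod_cast (by omega : 1 ≤ j + 2)
    nlinarith [hc.1]
  have hsn : s ≤ n := by
    have h1 : (s : ℝ) ≤ n := by
      refine hs.trans ?_
      nlinarith
    exact_mod_cast h1
  have h1 := star_ge j n s hsn
  have h2 := clique_le j n s h0 hsn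
  have hx : (s : ℝ) / n ≤ c - e0 := by rw [div_le_iff₀ hnr]; exact hs
  have h3 := gain (by omega) hc (x := (s : ℝ) / n) (by positivity) hx he
  have h4 : e0 * s * (n : ℝ) ^ (j + 1) ≤ (n : ℝ) ^ (j + 2) - ((n : ℝ) - s) ^ (j + 2) -
      (((j : ℝ) + 2) * s) ^ (j + 2) := by
    have h5 := mul_le_mul_of_nonneg_right h3 (by positivity : (0 : ℝ) ≤ (n : ℝ) ^ (j + 2))
    have e1 : e0 * ((s : ℝ) / n) * (n : ℝ) ^ (j + 2) = e0 * s * (n : ℝ) ^ (j + 1) := by
      field_simp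
      ring
    have e2 : (1 - (1 - (s : ℝ) / n) ^ (j + 2) - (((j + 2 : ℕ) : ℝ) * ((s : ℝ) / n)) ^ (j + 2)) * (n : ℝ) ^ (j + 2) =
        (n : ℝ) ^ (j + 2) - ((1 - (s : ℝ) / n) * n) ^ (j + 2) - ((((j + 2 : ℕ) : ℝ) * ((s : ℝ) / n)) * n) ^ (j + 2) := by
      rw [mul_pow (1 - (s : ℝ) / n), mul_pow (((j + 2 : ℕ) : ℝ) * ((s : ℝ) / n))]
      ring
    have e3 : (1 - (s : ℝ) / n) * n = n - s := by field_simp
    have e4 : (((j + 2 : ℕ) : ℝ) * ((s : ℝ) / n)) * n = ((j : ℝ) + 2) * s := by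
      push_cast
      field_simp
    rw [e1, e2, e3, e4] at h5
    exact h5
  have h5 : (C0 + C1) * (s * (n : ℝ) ^ j) ≤ e0 * n * (s * (n : ℝ) ^ j) :=
    mul_le_mul_of_nonneg_right hen (by positivity)
  have e5 : e0 * n * (s * (n : ℝ) ^ j) = e0 * s * (n : ℝ) ^ (j + 1) := by ring
  rw [e5] at h5
  rw [← hC0] at h1
  rw [← hC1] at h2
  have h6 : (((j + 2).factorial * ((j + 2) * (s + 1) - 1).choose (j + 2) : ℕ) : ℝ) +
      (((j + 2).factorial * (n - s).choose (j + 2) : ℕ) : ℝ) ≤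
      (((j + 2).factorial * n.choose (j + 2) : ℕ) : ℝ) := by
    have e6 : (C0 + C1) * (s * (n : ℝ) ^ j) = C0 * s * (n : ℝ) ^ j + C1 * s * (n : ℝ) ^ j := by ring
    rw [e6] at h5
    linarith
  have h7 : (j + 2).factorial * (((j + 2) * (s + 1) - 1).choose (j + 2) + (n - s).choose (j + 2)) ≤
      (j + 2).factorial * n.choose (j + 2) := by
    rw [mul_add]
    exact_mod_cast h6
  have h8 := Nat.le_of_mul_le_mul_left h7 (Nat.factorial_pos _)
  omega

/-- disjoint lethal sets -/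
theorem no_match {n k : ℕ} {y : Fin n → ℝ} (hy : ∀ v, 0 ≤ y v) {m : ℕ} (h : HasM (LF k y) m) :
    (m : ℝ) ≤ ∑ v, y v := by
  obtain ⟨M, hMF, hM, hMc⟩ := h
  have h1 : (m : ℝ) ≤ ∑ e ∈ M, ∑ v ∈ e, y v := by
    rw [← hMc]
    have h2 : ∑ _e ∈ M, (1 : ℝ) ≤ ∑ e ∈ M, ∑ v ∈ e, y v := by
      apply Finset.sum_le_sum
      intro e he
      have h3 := hMF he
      unfold LF at h3
      exact (Finset.mem_filter.mp h3).2
    simpa using h2
  refine h1.trans ?_
  have h2 : ∑ e ∈ M, ∑ v ∈ e, y v = ∑ v ∈ M.biUnion id, y v := by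
    rw [Finset.sum_biUnion]
    · rfl
    · intro a ha b hb hab
      exact hM a ha b hb hab
  rw [h2]
  exact Finset.sum_le_sum_of_subset_of_nonneg (Finset.subset_univ _) (fun v _ _ => hy v)

theorem LF_unif {n : ℕ} (k : ℕ) (y : Fin n → ℝ) : Unif k (LF k y) := by
  intro e he
  unfold LF at he
  rw [Finset.mem_filter, Finset.mem_powersetCard] at he
  exact he.1.2

theorem t_KR1 (_hCRF : S_CRF) (hX : S_XMC) : S_KR1 := by
  intro k hk hL c hc e0 he
  obtain ⟨j, rfl⟩ : ∃ j, k = j + 2 := ⟨k - 2, by omega⟩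
  obtain ⟨n1, h1⟩ := hX (j + 2) hk hL c hc e0 he
  obtain ⟨n2, h2⟩ := compare j hc he
  obtain ⟨n3, hn3⟩ := exists_nat_gt (1 / e0)
  refine ⟨max (max n1 n2) (max n3 1), ?_⟩
  intro n hn h hh hhc y hy hsum
  have hnn1 : n1 ≤ n := le_trans (le_trans (le_max_left _ _) (le_max_left _ _)) hn
  have hnn2 : n2 ≤ n := le_trans (le_trans (le_max_right _ _) (le_max_left _ _)) hn
  have hnn3 : n3 ≤ n := le_trans (le_trans (le_max_left _ _) (le_max_right _ _)) hn
  have hn0 : 0 < n := lt_of_lt_of_le Nat.one_pos (le_trans (le_trans (le_max_right _ _) (le_max_right _ _)) hn)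
  have hnr : (0 : ℝ) < n := by exact_mod_cast hn0
  have hen : 1 ≤ e0 * n := by
    have h3 : 1 / e0 ≤ n := hn3.le.trans (by exact_mod_cast hnn3)
    rw [div_le_iff₀ he] at h3
    linarith
  by_contra hcon
  push Not at hcon
  have hfl : (⌊h⌋₊ : ℝ) ≤ h := Nat.floor_le hh
  have hflt : h < ⌊h⌋₊ + 1 := Nat.lt_floor_add_one h
  obtain ⟨s, hs⟩ : ∃ s : ℕ, s = ⌊h⌋₊ := ⟨_, rfl⟩
  rw [← hs] at hfl hflt hcon
  have hsc : (s : ℝ) ≤ (c - e0) * n := hfl.trans hhc
  have hks : (j + 2) * (s + 1) ≤ n := by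
    have h3 : (((j + 2) * (s + 1) : ℕ) : ℝ) ≤ n := by
      have hkc := hc.2.1
      have hk0 : (0 : ℝ) < ((j + 2 : ℕ) : ℝ) := by positivity
      rw [Nat.cast_mul, Nat.cast_add s, Nat.cast_one]
      have h4 : (s : ℝ) + 1 ≤ c * n := by
        have : (c - e0) * n = c * n - e0 * n := by ring
        rw [this] at hsc
        linarith
      calc ((j + 2 : ℕ) : ℝ) * ((s : ℝ) + 1) ≤ ((j + 2 : ℕ) : ℝ) * (c * n) := mul_le_mul_of_nonneg_left h4 hk0.le
        _ = (((j + 2 : ℕ) : ℝ) * c) * n := by ring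
        _ ≤ 1 * n := mul_le_mul_of_nonneg_right hkc.le hnr.le
        _ = n := one_mul _
    exact_mod_cast h3
  have hM := h1 n hnn1 s hks (by
    rw [abs_sub_comm]
    refine le_trans ?_ (le_abs_self _)
    have : (c - e0) * n = c * n - e0 * n := by ring
    rw [this] at hsc
    linarith) (LF (j + 2) y) (LF_unif _ _) (by
    have h4 := h2 n hnn2 s hsc
    have h5 : n.choose (j + 2) - (n - s).choose (j + 2) < (LF (j + 2) y).card :=
      lt_of_le_of_lt (le_max_left _ _) hcon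
    exact max_lt h5 (lt_of_le_of_lt h4 h5))
  have h6 := no_match hy hM
  rw [hsum] at h6
  push_cast at h6
  linarith

end Pool.Agent.Q195.XK
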